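import Pool.Agent.H60.HED.Defs

set_option autoImplicit false

namespace Pool.Agent.H60.HED

open Finset

/-- Cut-off: `1` for `|r| ≤ 1`, `0` for `|r| ≥ 2`. -/
noncomputable def th (r : ℝ) : ℝ := max 0 (min 1 (2 - |r|))

theorem th_cont : Continuous th := by unfold th; fun_prop

theorem th_neg (r : ℝ) : th (-r) = th r := by simp [th]

theorem th_ne_zero {r : ℝ} (h : th r ≠ 0) : |r| < 2 := by
  by_contra hcon
  push Not at hcon
  apply h
  unfold th
  rw [max_eq_left]
  exact (min_le_right _ _).trans (by linarith)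

theorem th_ne_one {r : ℝ} (h : 1 - th r ≠ 0) : 1 < |r| := by
  by_contra hcon
  push Not at hcon
  apply h
  unfold th
  rw [min_eq_left (by linarith), max_eq_right (by norm_num)]
  norm_num

/-- The palette sets. -/
def pal (j : ℕ) : Set ℝ := {r | ∃ m : ℤ, |r - j - 3 * m| < 3 / 4}

theorem pal_open (j : ℕ) : IsOpen (pal j) := by
  have : pal j = ⋃ m : ℤ, {r : ℝ | |r - j - 3 * m| < 3 / 4} := by
    ext r; simp [pal]
  rw [this]
  refine isOpen_iUnion (fun m => isOpen_lt ?_ continuous_const)
  fun_prop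

theorem pal_cover (r : ℝ) : ∃ j : Fin 3, r ∈ pal (j : ℕ) := by
  let n : ℤ := round r
  have h : |r - n| ≤ 1 / 2 := abs_sub_round r
  have h3 : (0 : ℤ) ≤ n % 3 := Int.emod_nonneg _ (by norm_num)
  have h4 : n % 3 < 3 := Int.emod_lt_of_pos _ (by norm_num)
  refine ⟨⟨(n % 3).toNat, by omega⟩, n / 3, ?_⟩
  have h5 : (((n % 3).toNat : ℕ) : ℝ) + 3 * ((n / 3 : ℤ) : ℝ) = n := by
    have h6 : (((n % 3).toNat : ℕ) : ℤ) + 3 * (n / 3) = n := by
      rw [Int.toNat_of_nonneg h3]
      exact Int.emod_add_mul_ediv n 3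
    exact_mod_cast h6
  have h7 : r - (((n % 3).toNat : ℕ) : ℝ) - 3 * ((n / 3 : ℤ) : ℝ) = r - n := by rw [← h5]; ring
  rw [h7]
  linarith

theorem pal_disj (j : ℕ) (r r' : ℝ) (h : r' - r = 3 / 2 ∨ r' - r = - (3 / 2)) (hr : r ∈ pal j)
    (hr' : r' ∈ pal j) : False := by
  obtain ⟨m, hm⟩ := hr
  obtain ⟨m', hm'⟩ := hr'
  rw [abs_lt] at hm hm'
  have h1 : -(3 / 2 : ℝ) < (r' - r) - 3 * ((m' : ℝ) - m) := by linarith [hm.1, hm.2, hm'.1, hm'.2]
  have h2 : (r' - r) - 3 * ((m' : ℝ) - m) < 3 / 2 := by linarith [hm.1, hm.2, hm'.1, hm'.2]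
  rcases h with h | h
  · rw [h] at h1 h2
    have h3 : (0 : ℝ) < ((m' - m : ℤ) : ℝ) := by push_cast; linarith
    have h4 : ((m' - m : ℤ) : ℝ) < 1 := by push_cast; linarith
    have h5 : (0 : ℤ) < m' - m := by exact_mod_cast h3
    have h6 : m' - m < (1 : ℤ) := by exact_mod_cast h4
    omega
  · rw [h] at h1 h2
    have h3 : (-1 : ℝ) < ((m' - m : ℤ) : ℝ) := by push_cast; linarith
    have h4 : ((m' - m : ℤ) : ℝ) < 0 := by push_cast; linarith
    have h5 : (-1 : ℤ) < m' - m := by exact_mod_cast h3
    have h6 : m' - m < (0 : ℤ) := by exact_mod_cast h4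
    omega

theorem cov : S_COV := by
  intro k V _ G s hs
  classical
  -- antisymmetric weight 3/2
  let idx : V → ℕ := fun v => (Fintype.equivFin V v : ℕ)
  have hidx : Function.Injective idx := fun v w h => (Fintype.equivFin V).injective (Fin.ext h)
  let d : V → V → ℝ := fun v w => if idx v < idx w then 3 / 2 else if idx w < idx v then -(3 / 2)
    else 0
  have hd : ∀ v w, d w v = - d v w := by
    intro v w
    simp only [d]
    rcases lt_trichotomy (idx v) (idx w) with h | h | h
    · rw [if_neg (by omega), if_pos h, if_pos h]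
    · rw [if_neg (by omega), if_neg (by omega), if_neg (by omega), if_neg (by omega)]; simp
    · rw [if_pos h, if_neg (by omega), if_pos h]; simp
  have hd' : ∀ v w, v ≠ w → d v w = 3 / 2 ∨ d v w = -(3 / 2) := by
    intro v w hvw
    have hne : idx v ≠ idx w := fun h => hvw (hidx h)
    simp only [d]
    rcases lt_or_gt_of_ne hne with h | h
    · rw [if_pos h]; exact Or.inl rfl
    · rw [if_neg (by omega), if_pos h]; exact Or.inr rfl
  let Pot : Finset V → (V → ℝ) → Prop := fun A g =>
    ∀ v w, G.Adj v w → v ∈ A → w ∈ A → g w - g v = d v w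
  let gA : Finset V → V → ℝ := fun A => if h : ∃ g, Pot A g then h.choose else fun _ => 0
  have hgA : ∀ A, (∃ g, Pot A g) → Pot A (gA A) := by
    intro A h
    simp only [gA, dif_pos h]
    exact h.choose_spec
  let lam : Finset V → E k → ℝ := fun A x =>
    (∏ v ∈ A, th (s v x)) * ∏ v ∈ univ \ A, (1 - th (s v x))
  have hlam_sum : ∀ x, ∑ A ∈ (univ : Finset V).powerset, lam A x = 1 := by
    intro x
    have := Finset.prod_add (fun v => th (s v x)) (fun v => 1 - th (s v x)) (univ : Finset V)
    rw [← this]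
    simp
  have hlam_cont : ∀ A, Continuous (lam A) := by
    intro A
    refine Continuous.mul (continuous_finset_prod _ fun v _ => th_cont.comp (hs.cont v))
      (continuous_finset_prod _ fun v _ => continuous_const.sub (th_cont.comp (hs.cont v)))
  have hlam_neg : ∀ A x, lam A (-x) = lam A x := by
    intro A x
    simp only [lam, hs.odd, th_neg]
  have hlam_pot : ∀ A, ∀ x ∈ Sph k, lam A x ≠ 0 → Pot A (gA A) := by
    intro A x hx h
    apply hgA
    obtain ⟨g, hg⟩ := hs.exact x hx d hd
    have h1 : ∏ v ∈ A, th (s v x) ≠ 0 := left_ne_zero_of_mul h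
    refine ⟨g, fun v w hvw hv hw => hg v w hvw ?_ ?_⟩
    · exact th_ne_zero (Finset.prod_ne_zero_iff.mp h1 v hv)
    · exact th_ne_zero (Finset.prod_ne_zero_iff.mp h1 w hw)
  have hlam_mem : ∀ A x, lam A x ≠ 0 → ∀ v, |s v x| ≤ 1 → v ∈ A := by
    intro A x h v hv
    by_contra hcon
    have h1 : ∏ v ∈ univ \ A, (1 - th (s v x)) ≠ 0 := right_ne_zero_of_mul h
    have h2 := Finset.prod_ne_zero_iff.mp h1 v (by simp [hcon])
    have := th_ne_one h2
    linarith
  let g : V → E k → ℝ := fun v x => ∑ A ∈ (univ : Finset V).powerset, lam A x * gA A v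
  have hg_cont : ∀ v, Continuous (g v) := by
    intro v
    exact continuous_finset_sum _ fun A _ => (hlam_cont A).mul continuous_const
  have hg_neg : ∀ v x, g v (-x) = g v x := by
    intro v x
    simp only [g, hlam_neg]
  have hg_diff : ∀ v w, G.Adj v w → ∀ x ∈ Sph k, |s v x| ≤ 1 → |s w x| ≤ 1 →
      g w x - g v x = d v w := by
    intro v w hvw x hx hv hw
    calc g w x - g v x = ∑ A ∈ (univ : Finset V).powerset, lam A x * (gA A w - gA A v) := by
          simp only [g, ← Finset.sum_sub_distrib, mul_sub]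
      _ = ∑ A ∈ (univ : Finset V).powerset, lam A x * d v w := by
          refine Finset.sum_congr rfl fun A _ => ?_
          by_cases h : lam A x = 0
          · rw [h]; ring
          · rw [hlam_pot A x hx h v w hvw (hlam_mem A x h v hv) (hlam_mem A x h w hw)]
      _ = d v w := by rw [← Finset.sum_mul, hlam_sum, one_mul]
  let U : V → Fin 5 → Set (E k) := fun v i =>
    if (i : ℕ) = 0 then {x | 1 / 2 < s v x}
    else if (i : ℕ) = 1 then {x | s v x < -(1 / 2)}
    else {x | |s v x| < 1 ∧ g v x ∈ pal ((i : ℕ) - 2)}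
  refine ⟨U, ?_, ?_, ?_⟩
  · intro v i
    simp only [U]
    split_ifs with h1 h2
    · exact isOpen_lt continuous_const (hs.cont v)
    · exact isOpen_lt (hs.cont v) continuous_const
    · exact (isOpen_lt (hs.cont v).abs continuous_const).inter ((pal_open _).preimage (hg_cont v))
  · intro v x _
    by_cases h : |s v x| < 1
    · obtain ⟨j, hj⟩ := pal_cover (g v x)
      refine ⟨⟨(j : ℕ) + 2, by omega⟩, ?_⟩
      simp only [U]
      rw [if_neg (by omega), if_neg (by omega)]
      exact ⟨h, by simpa using hj⟩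
    · push Not at h
      rcases le_abs.mp h with h | h
      · refine ⟨0, ?_⟩
        simp only [U]
        rw [if_pos (by rfl)]
        show 1 / 2 < s v x
        linarith
      · refine ⟨1, ?_⟩
        simp only [U]
        rw [if_neg (by decide), if_pos (by rfl)]
        show s v x < -(1 / 2)
        linarith
  · intro v w hvw i x hx hxv hxw
    simp only [U] at hxv hxw
    split_ifs at hxv hxw with h1 h2
    · have h3 : 1 / 2 < s v x := hxv
      have h4 : 1 / 2 < s w (-x) := hxw
      have h5 := hs.odd w x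
      have h6 := hs.sign v w hvw x hx h3
      linarith
    · have h3 : s v x < -(1 / 2) := hxv
      have h4 : s w (-x) < -(1 / 2) := hxw
      have h5 := hs.odd w x
      have h6 := hs.sign w v hvw.symm x hx (by linarith)
      linarith
    · obtain ⟨h3, h4⟩ := hxv
      obtain ⟨h5, h6⟩ := hxw
      have h7 := hs.odd w x
      have h8 : |s w x| < 1 := by
        rw [h7, abs_neg] at h5
        exact h5
      rw [hg_neg] at h6
      have h9 := hg_diff v w hvw x hx h3.le h8.le
      refine pal_disj _ _ _ ?_ h4 h6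
      rw [h9]
      exact hd' v w hvw.ne

end Pool.Agent.H60.HED
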