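import Pool.Agent.H60.HED.Defs

set_option autoImplicit false

namespace Pool.Agent.H60.HED

theorem pe_neg (k : ℕ) (x : E k) (t : ℝ) : pe k (-x) t = - pe k x t := by
  simp [pe, Finset.sum_neg_distrib]

theorem pe_cont (k : ℕ) (t : ℝ) : Continuous (fun x : E k => pe k x t) := by
  unfold pe
  fun_prop

theorem neg_sph {k : ℕ} {x : E k} (hx : x ∈ Sph k) : -x ∈ Sph k := by
  simpa [Sph] using hx

/-- The graph on `S ⊕ I × W`. -/
def stepG {W S I : Type} (G : SimpleGraph W) (e : I → W → S) : SimpleGraph (S ⊕ I × W) where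
  Adj a b := match a, b with
    | Sum.inl _, Sum.inl _ => False
    | Sum.inl s, Sum.inr p => e p.1 p.2 = s
    | Sum.inr p, Sum.inl s => e p.1 p.2 = s
    | Sum.inr p, Sum.inr q => p.1 = q.1 ∧ G.Adj p.2 q.2
  symm := by
    constructor
    rintro (a | a) (b | b) h
    · exact h
    · exact h
    · exact h
    · exact ⟨h.1.symm, h.2.symm⟩
  loopless := by
    constructor
    rintro (a | a) h
    · exact h
    · exact G.irrefl h.2

theorem stepG_not_colorable {W S I : Type} [Fintype W] (G : SimpleGraph W) (e : I → W → S) (n : ℕ)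
    (hG : ¬ G.Colorable n)
    (hc : ∀ c : S → Fin (n + 1), ∃ (i : I) (a : Fin (n + 1)), ∀ w, c (e i w) = a) :
    ¬ (stepG G e).Colorable (n + 1) := by
  rintro ⟨C⟩
  obtain ⟨i, a, h⟩ := hc (fun s => C (Sum.inl s))
  apply hG
  have key : G.Colorable (Fintype.card {b : Fin (n + 1) // b ≠ a}) := by
    refine (SimpleGraph.Coloring.mk (G := G) (α := {b : Fin (n + 1) // b ≠ a})
      (fun w => ⟨C (Sum.inr (i, w)), ?_⟩) ?_).colorable
    · have hadj : (stepG G e).Adj (Sum.inl (e i w)) (Sum.inr (i, w)) := rfl
      have := C.valid hadj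
      rw [← h w]
      exact fun h' => this h'.symm
    · intro v w hvw heq
      have hadj : (stepG G e).Adj (Sum.inr (i, v)) (Sum.inr (i, w)) := ⟨rfl, hvw⟩
      exact C.valid hadj (congrArg Subtype.val heq)
  have hcard : Fintype.card {b : Fin (n + 1) // b ≠ a} = n := by
    rw [Fintype.card_subtype_compl]
    simp
  rwa [hcard] at key

theorem rec_thm (h1 : S_HYP) (h2 : S_GEN) (h3 : S_CLO) : S_REC := by
  intro k n
  induction n with
  | zero =>
    refine ⟨Unit, inferInstance, ⊥, ?_, ?_⟩
    · rintro ⟨C⟩
      exact (C ()).elim0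
    · intro t ε hε
      refine ⟨fun _ x => 2 / ε * pe k x t, ⟨?_, ?_, ?_, ?_⟩, ?_⟩
      · intro v
        exact continuous_const.mul (pe_cont k t)
      · intro v x
        simp only [pe_neg]; ring
      · intro v w h
        exact absurd h (by simp)
      · intro x _ d _
        exact ⟨fun _ => 0, fun v w h => absurd h (by simp)⟩
      · intro v x _ h
        show 2 ≤ 2 / ε * pe k x t
        rw [div_mul_eq_mul_div, le_div_iff₀ hε]
        linarith
  | succ n ih =>
    obtain ⟨W, fW, G, hG, hs⟩ := ih
    obtain ⟨S, I, fS, fI, e, hc, hx⟩ := h1 k (n + 1) W (Nat.succ_pos n)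
    refine ⟨S ⊕ I × W, inferInstance, stepG G e, stepG_not_colorable G e n hG hc, ?_⟩
    intro t ε hε
    obtain ⟨η, hη, hclo⟩ := h3 k t (ε / 8) (by linarith)
    -- distinct points close to t
    let N : ℕ := Fintype.card I
    let ti : I → ℝ := fun i => t + η * ((Fintype.equivFin I i : ℕ) / ((N : ℝ) + 1))
    have hN : (0 : ℝ) < (N : ℝ) + 1 := by positivity
    have hti : Function.Injective ti := by
      intro i j hij
      have h4 : η * ((Fintype.equivFin I i : ℕ) / ((N : ℝ) + 1)) =
          η * ((Fintype.equivFin I j : ℕ) / ((N : ℝ) + 1)) := by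
        have := hij
        simp only [ti] at this
        linarith
      have h5 := mul_left_cancel₀ hη.ne' h4
      have h6 := (div_left_inj' hN.ne').mp h5
      have h7 : (Fintype.equivFin I i : ℕ) = (Fintype.equivFin I j : ℕ) := by exact_mod_cast h6
      exact (Fintype.equivFin I).injective (Fin.ext h7)
    have htc : ∀ i, |ti i - t| < η := by
      intro i
      have h4 : ti i - t = η * ((Fintype.equivFin I i : ℕ) / ((N : ℝ) + 1)) := by
        simp only [ti]; ring
      have h5 : (0 : ℝ) ≤ (Fintype.equivFin I i : ℕ) / ((N : ℝ) + 1) := by positivity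
      have h6 : ((Fintype.equivFin I i : ℕ) : ℝ) / ((N : ℝ) + 1) < 1 := by
        rw [div_lt_one hN]
        have : ((Fintype.equivFin I i : ℕ) : ℝ) < N := by exact_mod_cast (Fintype.equivFin I i).2
        linarith
      rw [h4, abs_of_nonneg (by positivity)]
      nlinarith
    obtain ⟨ε0, hε0, hgen⟩ := h2 k I ti hti
    let ε1 : ℝ := min ε0 (ε / 8)
    have hε1 : 0 < ε1 := lt_min hε0 (by linarith)
    have hε1' : ε1 ≤ ε / 8 := min_le_right _ _
    have hε1'' : ε1 ≤ ε0 := min_le_left _ _
    choose s hsF hsL using fun i => hs (ti i) ε1 hε1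
    have hsL' : ∀ i w, ∀ x ∈ Sph k, pe k x (ti i) ≤ -ε1 → s i w x ≤ -2 := by
      intro i w x hx hp
      have := hsL i w (-x) (neg_sph hx) (by rw [pe_neg]; linarith)
      rw [(hsF i).odd] at this
      linarith
    have hact : ∀ i w, ∀ x ∈ Sph k, |s i w x| < 2 → |pe k x (ti i)| < ε1 := by
      intro i w x hx hp
      by_contra hcon
      push Not at hcon
      rcases le_abs.mp hcon with h | h
      · have := hsL i w x hx h
        rw [abs_lt] at hp
        linarith
      · have := hsL' i w x hx (by linarith)
        rw [abs_lt] at hp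
        linarith
    let s' : S ⊕ I × W → E k → ℝ := fun v x => match v with
      | Sum.inl _ => 2 / ε * pe k x t
      | Sum.inr p => s p.1 p.2 x
    have hodd : ∀ v x, s' v (-x) = - s' v x := by
      rintro (v | ⟨i, w⟩) x
      · simp only [s', pe_neg]; ring
      · exact (hsF i).odd w x
    have hsign1 : ∀ v i w, e i w = v → ∀ x ∈ Sph k, 1 / 2 < s' (Sum.inl v) x →
        2 ≤ s' (Sum.inr (i, w)) x := by
      intro v i w _ x hx h
      apply hsL i w x hx
      have h4 : 1 / 2 < 2 / ε * pe k x t := h
      have h5 : ε / 4 < pe k x t := by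
        rw [div_mul_eq_mul_div, lt_div_iff₀ hε] at h4
        linarith
      have h6 := hclo (ti i) (htc i) x hx
      rw [abs_lt] at h6
      linarith
    refine ⟨s', ⟨?_, hodd, ?_, ?_⟩, ?_⟩
    · rintro (v | ⟨i, w⟩)
      · exact continuous_const.mul (pe_cont k t)
      · exact (hsF i).cont w
    · rintro (v | ⟨i, w⟩) (v' | ⟨i', w'⟩) hadj x hx h
      · exact absurd hadj id
      · have := hsign1 v i' w' hadj x hx h
        linarith
      · by_contra hcon
        push Not at hcon
        have h6 := hodd (Sum.inl v') x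
        have h7 := hodd (Sum.inr (i, w)) x
        have h5 := hsign1 v' i w hadj (-x) (neg_sph hx) (by
          linarith)
        linarith
      · obtain ⟨h4, h5⟩ := hadj
        simp only at h4 h5
        subst h4
        exact (hsF i).sign w w' h5 x hx h
    · intro x hx' d hd
      classical
      choose g hg using fun i => (hsF i).exact x hx' (fun w w' => d (Sum.inr (i, w)) (Sum.inr (i, w')))
        (fun w w' => hd _ _)
      let F : Finset I := Finset.univ.filter (fun i => |pe k x (ti i)| < ε0)
      have hF : F.card ≤ k := hgen x hx' F (fun i hi => (Finset.mem_filter.mp hi).2)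
      obtain ⟨α, γ, hαγ⟩ := hx F hF (fun i w => g i w - d (Sum.inl (e i w)) (Sum.inr (i, w)))
      have hmem : ∀ i w, |s' (Sum.inr (i, w)) x| < 2 → i ∈ F := by
        intro i w h
        have := hact i w x hx' h
        exact Finset.mem_filter.mpr ⟨Finset.mem_univ _, lt_of_lt_of_le this hε1''⟩
      let g' : S ⊕ I × W → ℝ := fun v => match v with
        | Sum.inl v => α v
        | Sum.inr p => g p.1 p.2 + γ p.1
      refine ⟨g', ?_⟩
      have hmix : ∀ v i w, e i w = v → |s' (Sum.inr (i, w)) x| < 2 →
          g' (Sum.inr (i, w)) - g' (Sum.inl v) = d (Sum.inl v) (Sum.inr (i, w)) := by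
        intro v i w hv h
        have h4 := hαγ i (hmem i w h) w
        show g i w + γ i - α v = _
        rw [← hv]
        linarith
      rintro (v | ⟨i, w⟩) (v' | ⟨i', w'⟩) hadj hv hw
      · exact absurd hadj id
      · exact hmix v i' w' hadj hw
      · have h4 := hmix v' i w hadj hv
        have h5 := hd (Sum.inl v') (Sum.inr (i, w))
        linarith
      · obtain ⟨h4, h5⟩ := hadj
        simp only at h4 h5
        subst h4
        have := hg i w w' h5 hv hw
        show g i w' + γ i - (g i w + γ i) = _
        linarith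
    · rintro (v | ⟨i, w⟩) x hx' h
      · show 2 ≤ 2 / ε * pe k x t
        rw [div_mul_eq_mul_div, le_div_iff₀ hε]
        linarith
      · apply hsL i w x hx'
        have h6 := hclo (ti i) (htc i) x hx'
        rw [abs_lt] at h6
        linarith

end Pool.Agent.H60.HED
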