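import Pool.Agent.H60.HED.Defs4
import Pool.Agent.H60.HED.REC
import Pool.Agent.H60.HED.COV

set_option autoImplicit false

namespace Pool.Agent.H60.HED

open Finset

theorem cov4 : S_COV4 := by
  intro k V _ G up s hs
  classical
  let Pot : Finset V → (V → ℝ) → Prop := fun A g =>
    ∀ v w, G.Adj v w → up v w → v ∈ A → g w - g v = 3 / 2
  let gA : Finset V → V → ℝ := fun A => if h : ∃ g, Pot A g then h.choose else fun _ => 0
  have hgA : ∀ A, (∃ g, Pot A g) → Pot A (gA A) := by
    intro A h
    simp only [gA, dif_pos h]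
    exact h.choose_spec
  let lam : Finset V → E k → ℝ := fun A x =>
    (∏ v ∈ A, th (s v x)) * ∏ v ∈ univ \ A, (1 - th (s v x))
  have hlam_sum : ∀ x, ∑ A ∈ (univ : Finset V).powerset, lam A x = 1 := by
    intro x
    have := Finset.prod_add (fun v => th (s v x)) (fun v => 1 - th (s v x)) (univ : Finset V)
    rw [← this]
    simp
  have hlam_cont : ∀ A, Continuous (lam A) := by
    intro A
    refine Continuous.mul (continuous_finsetProd _ fun v _ => th_cont.comp (hs.cont v))
      (continuous_finsetProd _ fun v _ => continuous_const.sub (th_cont.comp (hs.cont v)))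
  have hlam_neg : ∀ A x, lam A (-x) = lam A x := by
    intro A x
    simp only [lam, hs.odd, th_neg]
  have hlam_pot : ∀ A, ∀ x ∈ Sph k, lam A x ≠ 0 → Pot A (gA A) := by
    intro A x hx h
    apply hgA
    obtain ⟨g, hg⟩ := hs.exact x hx
    have h1 : ∏ v ∈ A, th (s v x) ≠ 0 := left_ne_zero_of_mul h
    refine ⟨g, fun v w hvw hup hv => hg v w hvw hup ?_⟩
    exact th_ne_zero (Finset.prod_ne_zero_iff.mp h1 v hv)
  have hlam_mem : ∀ A x, lam A x ≠ 0 → ∀ v, |s v x| ≤ 1 → v ∈ A := by
    intro A x h v hv
    by_contra hcon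
    have h1 : ∏ v ∈ univ \ A, (1 - th (s v x)) ≠ 0 := right_ne_zero_of_mul h
    have h2 := Finset.prod_ne_zero_iff.mp h1 v (by simp [hcon])
    have := th_ne_one h2
    linarith
  let g : V → E k → ℝ := fun v x => ∑ A ∈ (univ : Finset V).powerset, lam A x * gA A v
  have hg_cont : ∀ v, Continuous (g v) := by
    intro v
    exact continuous_finsetSum _ fun A _ => (hlam_cont A).mul continuous_const
  have hg_neg : ∀ v x, g v (-x) = g v x := by
    intro v x
    simp only [g, hlam_neg]
  have hg_diff : ∀ v w, G.Adj v w → up v w → ∀ x ∈ Sph k, |s v x| ≤ 1 →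
      g w x - g v x = 3 / 2 := by
    intro v w hvw hup x hx hv
    calc g w x - g v x = ∑ A ∈ (univ : Finset V).powerset, lam A x * (gA A w - gA A v) := by
          simp only [g, ← Finset.sum_sub_distrib, mul_sub]
      _ = ∑ A ∈ (univ : Finset V).powerset, lam A x * (3 / 2) := by
          refine Finset.sum_congr rfl fun A _ => ?_
          by_cases h : lam A x = 0
          · rw [h]; ring
          · rw [hlam_pot A x hx h v w hvw hup (hlam_mem A x h v hv)]
      _ = 3 / 2 := by rw [← Finset.sum_mul, hlam_sum, one_mul]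
  let U : V → Fin 4 → Set (E k) := fun v i =>
    if (i : ℕ) = 3 then {x | s v x < -(1 / 2)}
    else {x | -1 < s v x ∧ g v x ∈ pal (i : ℕ)}
  refine ⟨U, ?_, ?_, ?_⟩
  · intro v i
    simp only [U]
    split_ifs with h1
    · exact isOpen_lt (hs.cont v) continuous_const
    · exact (isOpen_lt continuous_const (hs.cont v)).inter ((pal_open _).preimage (hg_cont v))
  · intro v x _
    by_cases h : -1 < s v x
    · obtain ⟨j, hj⟩ := pal_cover (g v x)
      refine ⟨⟨(j : ℕ), by omega⟩, ?_⟩
      simp only [U]
      rw [if_neg (by omega)]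
      exact ⟨h, hj⟩
    · push Not at h
      refine ⟨3, ?_⟩
      simp only [U]
      rw [if_pos (by rfl)]
      show s v x < -(1 / 2)
      linarith
  · -- the clash condition, first for `up v w`
    have key : ∀ v w, G.Adj v w → up v w → ∀ i, ∀ x ∈ Sph k, x ∈ U v i → -x ∈ U w i → False := by
      intro v w hvw hup i x hx hxv hxw
      have hov := hs.odd v x
      have how := hs.odd w x
      simp only [U] at hxv hxw
      split_ifs at hxv hxw with h1
      · have h3 : s v x < -(1 / 2) := hxv
        have h4 : s w (-x) < -(1 / 2) := hxw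
        have h6 := hs.sign v w hvw hup (-x) (neg_sph hx) (by linarith)
        linarith
      · obtain ⟨h3, h4⟩ := hxv
        obtain ⟨h5, h6⟩ := hxw
        rw [hg_neg] at h6
        by_cases h7 : |s v x| ≤ 1
        · exact pal_disj _ _ _ (Or.inl (hg_diff v w hvw hup x hx h7)) h4 h6
        · push Not at h7
          rcases lt_abs.mp h7 with h8 | h8
          · have h9 := hs.sign v w hvw hup x hx (by linarith)
            linarith
          · linarith
    intro v w hvw i x hx hxv hxw
    rcases hs.tot v w hvw with hup | hup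
    · exact key v w hvw hup i x hx hxv hxw
    · have h1 : -(-x) ∈ U v i := by rw [neg_neg]; exact hxv
      exact key w v hvw.symm hup i (-x) (neg_sph hx) hxw h1

end Pool.Agent.H60.HED
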