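import Mathlib

/-!
# f(n) ≤ 5 for the Poljak–Rödl function: statements of the modules

`p k x t = x_0 + x_1 t + ... + x_k t^k`.  The sphere is the unit sphere of `Fin (k+1) → ℝ`.
-/

set_option autoImplicit false

namespace Pool.Agent.H60.HED

/-- The space `ℝ^(k+1)`. -/
abbrev E (k : ℕ) : Type := Fin (k + 1) → ℝ

/-- The unit sphere (sup norm), a `k`-sphere. -/
abbrev Sph (k : ℕ) : Set (E k) := Metric.sphere 0 1

/-- Evaluation of the polynomial with coefficient vector `x` at `t`. -/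
def pe (k : ℕ) (x : E k) (t : ℝ) : ℝ := ∑ j : Fin (k + 1), x j * t ^ (j : ℕ)

/-- LSO: Lusternik–Schnirelmann for open sets. -/
def S_LSO : Prop := ∀ (k M : ℕ) (U : Fin M → Set (E k)), (∀ i, IsOpen (U i)) →
  (∀ x ∈ Sph k, ∃ i, x ∈ U i) → (∀ i, ∀ x ∈ Sph k, x ∈ U i → -x ∉ U i) → k + 2 ≤ M

/-- GEN: at most `k` of finitely many point evaluations are small at the same time. -/
def S_GEN : Prop := ∀ (k : ℕ) (I : Type) [Fintype I] (t : I → ℝ), Function.Injective t →
  ∃ ε : ℝ, 0 < ε ∧ ∀ x ∈ Sph k, ∀ F : Finset I, (∀ i ∈ F, |pe k x (t i)| < ε) → F.card ≤ k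

/-- CLO: point evaluations at close points are close, uniformly on the sphere. -/
def S_CLO : Prop := ∀ (k : ℕ) (t δ : ℝ), 0 < δ →
  ∃ η : ℝ, 0 < η ∧ ∀ t' : ℝ, |t' - t| < η → ∀ x ∈ Sph k, |pe k x t' - pe k x t| < δ

/-- HYP: hypergraphs (edges = functions `e i : W → S`) with a monochromatic edge in every
`n`-colouring, such that every family of at most `k` edges is exact (acyclic). -/
def S_HYP : Prop := ∀ (k n : ℕ) (W : Type) [Fintype W], 0 < n →
  ∃ (S I : Type) (_ : Fintype S) (_ : Fintype I) (e : I → W → S),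
    (∀ c : S → Fin n, ∃ (i : I) (a : Fin n), ∀ w, c (e i w) = a) ∧
    (∀ F : Finset I, F.card ≤ k → ∀ d : I → W → ℝ,
      ∃ (α : S → ℝ) (γ : I → ℝ), ∀ i ∈ F, ∀ w, α (e i w) = γ i + d i w)

/-- A family of odd continuous functions `s v` on the sphere for the graph `G`
with orientation `up` (an edge `v w` has `up v w` or `up w v`, not both):
signs do not clash along edges and the active vertices span an exact graph. -/
structure Fam (k : ℕ) {V : Type} (G : SimpleGraph V) (s : V → E k → ℝ) : Prop where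
  cont : ∀ v, Continuous (s v)
  odd : ∀ v x, s v (-x) = - s v x
  sign : ∀ v w, G.Adj v w → ∀ x ∈ Sph k, 1 / 2 < s v x → -(1 / 2) ≤ s w x
  exact : ∀ x ∈ Sph k, ∀ d : V → V → ℝ, (∀ v w, d w v = - d v w) →
    ∃ g : V → ℝ, ∀ v w, G.Adj v w → |s v x| < 2 → |s w x| < 2 → g w - g v = d v w

/-- REC: for every `n` there is a finite graph, not `n`-colourable, which has such a family
concentrated near the hyperplane `pe k x t = 0`, for every `t` and `ε`. -/
def S_REC : Prop := ∀ (k n : ℕ), ∃ (V : Type) (_ : Fintype V) (G : SimpleGraph V),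
  ¬ G.Colorable n ∧ ∀ (t ε : ℝ), 0 < ε → ∃ s : V → E k → ℝ, Fam k G s ∧
    ∀ v, ∀ x ∈ Sph k, ε ≤ pe k x t → 2 ≤ s v x

/-- COV: a family gives odd open covers of the sphere with five colours. -/
def S_COV : Prop := ∀ (k : ℕ) (V : Type) [Fintype V] (G : SimpleGraph V) (s : V → E k → ℝ),
  Fam k G s → ∃ U : V → Fin 5 → Set (E k), (∀ v i, IsOpen (U v i)) ∧
    (∀ v, ∀ x ∈ Sph k, ∃ i, x ∈ U v i) ∧
    ∀ v w, G.Adj v w → ∀ i, ∀ x ∈ Sph k, x ∈ U v i → -x ∉ U w i

/-- EXP: odd open covers with `c` colours bound the chromatic number of the product. -/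
def S_EXP : Prop := ∀ (c k : ℕ) (V : Type) [Fintype V] (G : SimpleGraph V)
  (U : V → Fin c → Set (E k)), (∀ v i, IsOpen (U v i)) →
    (∀ v, ∀ x ∈ Sph k, ∃ i, x ∈ U v i) →
    (∀ v w, G.Adj v w → ∀ i, ∀ x ∈ Sph k, x ∈ U v i → -x ∉ U w i) →
    ¬ G.Colorable c →
    ∃ (W : Type) (_ : Fintype W) (H : SimpleGraph W), ¬ H.Colorable (k + 1) ∧
      (SimpleGraph.fromRel (fun p q : V × W => G.Adj p.1 q.1 ∧ H.Adj p.2 q.2)).Colorable c

/-- FIN: the final statement from the product bound, for any number `c` of colours. -/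
def S_FIN : Prop := ∀ c : ℕ, 0 < c → (∀ n : ℕ, ∃ (V W : Type) (_ : Fintype V) (_ : Fintype W)
    (G : SimpleGraph V) (H : SimpleGraph W), ¬ G.Colorable n ∧ ¬ H.Colorable n ∧
      (SimpleGraph.fromRel (fun p q : V × W => G.Adj p.1 q.1 ∧ H.Adj p.2 q.2)).Colorable c) →
  ∀ n : ℕ, ∃ (V W : Type) (_ : Fintype V) (_ : Fintype W)
    (G : SimpleGraph V) (H : SimpleGraph W), G.chromaticNumber = (n : ℕ∞) ∧
      H.chromaticNumber = (n : ℕ∞) ∧
      (SimpleGraph.fromRel (fun p q : V × W => G.Adj p.1 q.1 ∧ H.Adj p.2 q.2)).chromaticNumber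
        ≤ (c : ℕ∞)

end Pool.Agent.H60.HED
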