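import Pool.Agent.H60.HED.Defs

/-!
# f(n) ≤ 4: families with an orientation (`up v w`: `v` is the upper end)
-/

set_option autoImplicit false

namespace Pool.Agent.H60.HED

/-- A family of odd continuous functions `s v` for the graph `G` with an orientation `up`. -/
structure Fam4 (k : ℕ) {V : Type} (G : SimpleGraph V) (up : V → V → Prop) (s : V → E k → ℝ) :
    Prop where
  cont : ∀ v, Continuous (s v)
  odd : ∀ v x, s v (-x) = - s v x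
  tot : ∀ v w, G.Adj v w → up v w ∨ up w v
  sign : ∀ v w, G.Adj v w → up v w → ∀ x ∈ Sph k, 1 / 2 < s v x → 1 ≤ s w x
  exact : ∀ x ∈ Sph k, ∃ g : V → ℝ, ∀ v w, G.Adj v w → up v w → |s v x| < 2 → g w - g v = 3 / 2

/-- REC4 -/
def S_REC4 : Prop := ∀ (k n : ℕ), ∃ (V : Type) (_ : Fintype V) (G : SimpleGraph V)
  (up : V → V → Prop), ¬ G.Colorable n ∧ ∀ (t ε : ℝ), 0 < ε → ∃ s : V → E k → ℝ,
    Fam4 k G up s ∧ ∀ v, ∀ x ∈ Sph k, ε ≤ pe k x t → 2 ≤ s v x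

/-- COV4 -/
def S_COV4 : Prop := ∀ (k : ℕ) (V : Type) [Fintype V] (G : SimpleGraph V) (up : V → V → Prop)
  (s : V → E k → ℝ), Fam4 k G up s → ∃ U : V → Fin 4 → Set (E k), (∀ v i, IsOpen (U v i)) ∧
    (∀ v, ∀ x ∈ Sph k, ∃ i, x ∈ U v i) ∧
    ∀ v w, G.Adj v w → ∀ i, ∀ x ∈ Sph k, x ∈ U v i → -x ∉ U w i

end Pool.Agent.H60.HED
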