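import Pool.Agent.H60.HED.Defs4
import Pool.Agent.H60.HED.REC

set_option autoImplicit false

namespace Pool.Agent.H60.HED

/-- The orientation on `S ⊕ I × W`. -/
def stepUp {W : Type} (S I : Type) (up : W → W → Prop) : S ⊕ I × W → S ⊕ I × W → Prop
  | Sum.inl _, Sum.inl _ => False
  | Sum.inl _, Sum.inr _ => True
  | Sum.inr _, Sum.inl _ => False
  | Sum.inr p, Sum.inr q => up p.2 q.2

theorem rec4 (h1 : S_HYP) (h2 : S_GEN) (h3 : S_CLO) : S_REC4 := by
  intro k n
  induction n with
  | zero =>
    refine ⟨Unit, inferInstance, ⊥, fun _ _ => False, ?_, ?_⟩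
    · rintro ⟨C⟩
      exact (C ()).elim0
    · intro t ε hε
      refine ⟨fun _ x => 2 / ε * pe k x t, ⟨?_, ?_, ?_, ?_, ?_⟩, ?_⟩
      · intro v
        exact continuous_const.mul (pe_cont k t)
      · intro v x
        simp only [pe_neg]; ring
      · intro v w h
        exact absurd h (by simp)
      · intro v w h
        exact absurd h (by simp)
      · intro x _
        exact ⟨fun _ => 0, fun v w h => absurd h (by simp)⟩
      · intro v x _ h
        show 2 ≤ 2 / ε * pe k x t
        rw [div_mul_eq_mul_div, le_div_iff₀ hε]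
        linarith
  | succ n ih =>
    obtain ⟨W, fW, G, up, hG, hs⟩ := ih
    obtain ⟨S, I, fS, fI, e, hc, hx⟩ := h1 k (n + 1) W (Nat.succ_pos n)
    refine ⟨S ⊕ I × W, inferInstance, stepG G e, stepUp S I up,
      stepG_not_colorable G e n hG hc, ?_⟩
    intro t ε hε
    obtain ⟨η, hη, hclo⟩ := h3 k t (ε / 8) (by linarith)
    -- distinct points close to t
    let N : ℕ := Fintype.card I
    let ti : I → ℝ := fun i => t + η * ((Fintype.equivFin I i : ℕ) / ((N : ℝ) + 1))
    have hN : (0 : ℝ) < (N : ℝ) + 1 := by positivity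
    have hti : Function.Injective ti := by
      intro i j hij
      have h4 : η * ((Fintype.equivFin I i : ℕ) / ((N : ℝ) + 1)) =
          η * ((Fintype.equivFin I j : ℕ) / ((N : ℝ) + 1)) := by
        have := hij
        simp only [ti] at this
        linarith
      have h5 := mul_left_cancel₀ hη.ne' h4
      have h6 := (div_left_inj' hN.ne').mp h5
      have h7 : (Fintype.equivFin I i : ℕ) = (Fintype.equivFin I j : ℕ) := by exact_mod_cast h6
      exact (Fintype.equivFin I).injective (Fin.ext h7)
    have htc : ∀ i, |ti i - t| < η := by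
      intro i
      have h4 : ti i - t = η * ((Fintype.equivFin I i : ℕ) / ((N : ℝ) + 1)) := by
        simp only [ti]; ring
      have h5 : (0 : ℝ) ≤ (Fintype.equivFin I i : ℕ) / ((N : ℝ) + 1) := by positivity
      have h6 : ((Fintype.equivFin I i : ℕ) : ℝ) / ((N : ℝ) + 1) < 1 := by
        rw [div_lt_one hN]
        have : ((Fintype.equivFin I i : ℕ) : ℝ) < N := by exact_mod_cast (Fintype.equivFin I i).2
        linarith
      rw [h4, abs_of_nonneg (by positivity)]
      nlinarith
    obtain ⟨ε0, hε0, hgen⟩ := h2 k I ti hti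
    let ε1 : ℝ := min ε0 (ε / 8)
    have hε1 : 0 < ε1 := lt_min hε0 (by linarith)
    have hε1' : ε1 ≤ ε / 8 := min_le_right _ _
    have hε1'' : ε1 ≤ ε0 := min_le_left _ _
    choose s hsF hsL using fun i => hs (ti i) ε1 hε1
    have hsL' : ∀ i w, ∀ x ∈ Sph k, pe k x (ti i) ≤ -ε1 → s i w x ≤ -2 := by
      intro i w x hx hp
      have := hsL i w (-x) (neg_sph hx) (by rw [pe_neg]; linarith)
      rw [(hsF i).odd] at this
      linarith
    have hact : ∀ i w, ∀ x ∈ Sph k, |s i w x| < 2 → |pe k x (ti i)| < ε1 := by
      intro i w x hx hp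
      by_contra hcon
      push Not at hcon
      rcases le_abs.mp hcon with h | h
      · have := hsL i w x hx h
        rw [abs_lt] at hp
        linarith
      · have := hsL' i w x hx (by linarith)
        rw [abs_lt] at hp
        linarith
    let s' : S ⊕ I × W → E k → ℝ := fun v x => match v with
      | Sum.inl _ => 2 / ε * pe k x t
      | Sum.inr p => s p.1 p.2 x
    have hodd : ∀ v x, s' v (-x) = - s' v x := by
      rintro (v | ⟨i, w⟩) x
      · simp only [s', pe_neg]; ring
      · exact (hsF i).odd w x
    have hsign1 : ∀ v i w, e i w = v → ∀ x ∈ Sph k, 1 / 2 < s' (Sum.inl v) x →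
        2 ≤ s' (Sum.inr (i, w)) x := by
      intro v i w _ x hx h
      apply hsL i w x hx
      have h4 : 1 / 2 < 2 / ε * pe k x t := h
      have h5 : ε / 4 < pe k x t := by
        rw [div_mul_eq_mul_div, lt_div_iff₀ hε] at h4
        linarith
      have h6 := hclo (ti i) (htc i) x hx
      rw [abs_lt] at h6
      linarith
    refine ⟨s', ⟨?_, hodd, ?_, ?_, ?_⟩, ?_⟩
    · rintro (v | ⟨i, w⟩)
      · exact continuous_const.mul (pe_cont k t)
      · exact (hsF i).cont w
    · rintro (v | ⟨i, w⟩) (v' | ⟨i', w'⟩) hadj
      · exact absurd hadj id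
      · exact Or.inl trivial
      · exact Or.inr trivial
      · obtain ⟨h4, h5⟩ := hadj
        simp only at h4 h5
        subst h4
        exact (hsF i).tot w w' h5
    · rintro (v | ⟨i, w⟩) (v' | ⟨i', w'⟩) hadj hup x hx h
      · exact absurd hadj id
      · have := hsign1 v i' w' hadj x hx h
        linarith
      · exact absurd hup id
      · obtain ⟨h4, h5⟩ := hadj
        simp only at h4 h5
        subst h4
        exact (hsF i).sign w w' h5 hup x hx h
    · intro x hx'
      classical
      choose g hg using fun i => (hsF i).exact x hx'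
      let F : Finset I := Finset.univ.filter (fun i => |pe k x (ti i)| < ε0)
      have hF : F.card ≤ k := hgen x hx' F (fun i hi => (Finset.mem_filter.mp hi).2)
      obtain ⟨α, γ, hαγ⟩ := hx F hF (fun i w => g i w - 3 / 2)
      have hmem : ∀ i w, |s i w x| < 2 → i ∈ F := by
        intro i w h
        have := hact i w x hx' h
        exact Finset.mem_filter.mpr ⟨Finset.mem_univ _, lt_of_lt_of_le this hε1''⟩
      let g' : S ⊕ I × W → ℝ := fun v => match v with
        | Sum.inl v => α v
        | Sum.inr p => if p.1 ∈ F then g p.1 p.2 + γ p.1 else α (e p.1 p.2) + 3 / 2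
      refine ⟨g', ?_⟩
      rintro (v | ⟨i, w⟩) (v' | ⟨i', w'⟩) hadj hup hv
      · exact absurd hadj id
      · have hv' : e i' w' = v := hadj
        show (if i' ∈ F then g i' w' + γ i' else α (e i' w') + 3 / 2) - α v = 3 / 2
        split_ifs with h
        · have h4 := hαγ i' h w'
          rw [← hv']
          linarith
        · rw [← hv']
          ring
      · exact absurd hup id
      · obtain ⟨h4, h5⟩ := hadj
        simp only at h4 h5
        subst h4
        have hi : i ∈ F := hmem i w hv
        have := hg i w w' h5 hup hv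
        show (if i ∈ F then g i w' + γ i else α (e i w') + 3 / 2) -
          (if i ∈ F then g i w + γ i else α (e i w) + 3 / 2) = 3 / 2
        rw [if_pos hi, if_pos hi]
        linarith
    · rintro (v | ⟨i, w⟩) x hx' h
      · show 2 ≤ 2 / ε * pe k x t
        rw [div_mul_eq_mul_div, le_div_iff₀ hε]
        linarith
      · apply hsL i w x hx'
        have h6 := hclo (ti i) (htc i) x hx'
        rw [abs_lt] at h6
        linarith

end Pool.Agent.H60.HED
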